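import Pool.Agent.Results.MP_8f36f1_lc.SeparatedUnderCH

/-!
# MP_8f36f1_lc : a family witnessing normality without separation has size at least `𝔡(ω₁)`

Let `F` witness the normality of `Y`, `#Y = ℵ₁`.  If `Y` is not separated, then at most `#F` many
non-separated sets are dense (under inclusion) in the non-separated subsets of `Y`, and at most
`#F` many functions `ω₁ → ω₁` dominate all functions `ω₁ → ω₁` everywhere.

The definitions (base systems, basic functions, `Witnesses`, `WitnessesNormality`, `Separated`) are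
those of the file `WeaklySeparated.lean` of the same problem.
-/

namespace Pool.Agent.Results.MP_8f36f1_lc.DominatingBound

open Cardinal Set Ordinal
open Pool.Agent.Results.MP_8f36f1_lc.WeaklySeparated
open Pool.Agent.Helper797F

universe u

/-- A linear order of type `ω₁`. -/
abbrev Om : Type u := (ℵ₁ : Cardinal.{u}).ord.ToType

theorem mk_Om : #Om.{u} = ℵ₁ := by
  rw [Cardinal.mk_ord_toType]

theorem countable_Iic (a : Om.{u}) : (Set.Iic a).Countable := by
  have h1 : #(Set.Iio a) < ℵ₁ := Cardinal.mk_Iio_toType_ord_lt a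
  have h0 : #(Set.Iio a) ≤ ℵ₀ := by
    rw [← Order.lt_succ_iff, Cardinal.succ_aleph0]
    exact h1
  have h2 : (Set.Iio a).Countable := Set.countable_coe_iff.1 (Cardinal.mk_le_aleph0_iff.1 h0)
  have h3 : Set.Iic a = Set.Iio a ∪ {a} := by
    ext b
    simp [le_iff_lt_or_eq]
  rw [h3]
  exact h2.union (Set.countable_singleton a)

theorem not_countable_univ : ¬ (Set.univ : Set Om.{u}).Countable := by
  intro h
  have h1 : #Om.{u} ≤ ℵ₀ := by
    rw [Cardinal.mk_le_aleph0_iff]
    exact Set.countable_univ_iff.1 h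
  rw [mk_Om, ← Cardinal.succ_aleph0] at h1
  exact absurd h1 (not_le.2 (Order.lt_succ _))

/-- countable sets are bounded -/
theorem exists_bound (S : Set Om.{u}) (hS : S.Countable) : ∃ b, ∀ a ∈ S, a < b := by
  by_contra hcon
  push Not at hcon
  apply not_countable_univ
  refine (hS.biUnion (t := fun a _ => Set.Iic a) (fun a _ => countable_Iic a)).mono ?_
  intro b _
  obtain ⟨a, ha, hab⟩ := hcon b
  exact Set.mem_biUnion ha hab

/-- every function is below a monotone function -/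
theorem exists_monotone (h : Om.{u} → Om.{u}) : ∃ h' : Om.{u} → Om.{u}, (∀ a, h a ≤ h' a) ∧
    ∀ a b, a ≤ b → h' a ≤ h' b := by
  classical
  have hb : ∀ a, ∃ b, ∀ c ≤ a, h c ≤ b := by
    intro a
    obtain ⟨b, hb⟩ := exists_bound (h '' Set.Iic a) ((countable_Iic a).image h)
    exact ⟨b, fun c hc => (hb _ ⟨c, hc, rfl⟩).le⟩
  let S : Om.{u} → Set Om.{u} := fun a => {b | ∀ c ≤ a, h c ≤ b}
  let h' : Om.{u} → Om.{u} := fun a => WellFounded.min wellFounded_lt (S a) (hb a)
  have h1 : ∀ a, h' a ∈ S a := fun a => WellFounded.min_mem _ _ _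
  refine ⟨h', fun a => h1 a a le_rfl, fun a b hab => ?_⟩
  have h2 : h' b ∈ S a := fun c hc => h1 b c (hc.trans hab)
  exact not_lt.1 (WellFounded.not_lt_min wellFounded_lt (S a) h2)

/-- the second element of `C` above `a` -/
theorem exists_second (C : Set Om.{u}) (hC : ¬ C.Countable) (a : Om.{u}) :
    ∃ b ∈ C, ∃ c ∈ C, a ≤ b ∧ b < c := by
  have h1 : ∀ a, ∃ b ∈ C, a < b := by
    intro a
    by_contra hcon
    push Not at hcon
    exact hC ((countable_Iic a).mono fun b hb => hcon b hb)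
  obtain ⟨b, hb, hab⟩ := h1 a
  obtain ⟨c, hc, hbc⟩ := h1 b
  exact ⟨b, hb, c, hc, hab.le, hbc⟩

/-- a dominating family has more than `ℵ₁` members -/
theorem lt_of_dominating (D : Set (Om.{u} → Om.{u}))
    (hD : ∀ h : Om.{u} → Om.{u}, ∃ g ∈ D, ∀ a, h a ≤ g a) : ℵ₁ < #D := by
  by_contra hcon
  rw [not_lt, ← mk_Om] at hcon
  have hne : D.Nonempty := by
    obtain ⟨g, hg, -⟩ := hD id
    exact ⟨g, hg⟩
  have : Nonempty D := hne.to_subtype
  obtain ⟨i⟩ := (Cardinal.le_def _ _).1 hcon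
  let e : Om.{u} → D := Function.invFun i
  have he : Function.Surjective e := Function.invFun_surjective i.injective
  have hs : ∀ a, ∃ b, (e a).1 a < b := by
    intro a
    obtain ⟨b, hb⟩ := exists_bound {(e a).1 a} (Set.countable_singleton _)
    exact ⟨b, hb _ rfl⟩
  choose s hs using hs
  obtain ⟨g, hg, hgs⟩ := hD s
  obtain ⟨a, ha⟩ := he ⟨g, hg⟩
  have h1 := hs a
  rw [ha] at h1
  exact absurd (hgs a) (not_le.2 h1)

/-- **Main theorem** (ZFC, no assumption on `X`, no assumption on cardinal arithmetic).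
Let `Y ⊆ X`, `#Y = ℵ₁`, and let `F` be a family of basic functions (for the local bases `𝓑`) which
witnesses the normality of `Y`.  If `Y` is not separated, then:

(1) there is a family `R` of at most `#F` non-separated subsets of `Y` such that every
non-separated subset of `Y` contains a member of `R`;

(2) there is a family `D` of at most `#F` functions `ω₁ → ω₁` such that every function `ω₁ → ω₁` is
everywhere dominated by a member of `D`; so `#F` is at least the dominating number `𝔡(ω₁)`. -/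
theorem result : ∀ (X : Type u) [TopologicalSpace X] (Y : Set X) (𝓑 : Y → Set (Set X)),
    IsBaseSystem Y 𝓑 → ∀ F : Set (Y → Set X), (∀ f ∈ F, IsBasic 𝓑 f) → WitnessesNormality F →
    #Y = ℵ₁ → ¬ Separated (Set.univ : Set Y) →
    (∃ R : Set (Set Y), #R ≤ #F ∧ (∀ C ∈ R, ¬ Separated C) ∧
      ∀ A : Set Y, ¬ Separated A → ∃ C ∈ R, C ⊆ A) ∧
    (∃ D : Set (Om.{u} → Om.{u}), #D ≤ #F ∧ ∀ h : Om.{u} → Om.{u}, ∃ g ∈ D, ∀ a, h a ≤ g a) := by
  classical
  intro X _ Y 𝓑 h𝓑 F hFb hF hY hns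
  have hopen : ∀ f ∈ F, ∀ y : Y, IsOpen (f y) ∧ (y : X) ∈ f y := fun f hf y =>
    ⟨((h𝓑 y).1 _ (hFb f hf y)).1, ((h𝓑 y).1 _ (hFb f hf y)).2.1⟩
  obtain ⟨R, hR, H⟩ := SeparatedUnderCH.dense_components F hopen hF
  have h01 : (ℵ₀ : Cardinal.{u}) ≤ ℵ₁ := Cardinal.aleph0_le_aleph 1
  obtain ⟨φ⟩ : Nonempty (Om.{u} ≃ Y) := by
    rw [← Cardinal.eq, mk_Om, hY]
  let R' : Set (Set Y) := {C | C ∈ R ∧ ¬ Separated C}
  have hR' : #R' ≤ #R := Cardinal.mk_le_mk_of_subset fun C hC => hC.1
  -- the function of a set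
  have hsec : ∀ C : Set Y, ∀ a : Om.{u}, ∃ c : Om.{u}, ¬ Separated C →
      φ c ∈ C ∧ ∃ b, φ b ∈ C ∧ a ≤ b ∧ b < c := by
    intro C a
    by_cases hC : Separated C
    · exact ⟨a, fun h => absurd hC h⟩
    · have h1 : ¬ (φ ⁻¹' C).Countable := by
        intro h2
        apply hC
        apply H.countable
        have h3 := h2.image φ
        rwa [Set.image_preimage_eq C φ.surjective] at h3
      obtain ⟨b, hb, c, hc, hab, hbc⟩ := exists_second _ h1 a
      exact ⟨c, fun _ => ⟨hc, b, hb, hab, hbc⟩⟩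
  choose g hg using hsec
  let D : Set (Om.{u} → Om.{u}) := g '' R'
  have hD : ∀ h : Om.{u} → Om.{u}, ∃ g ∈ D, ∀ a, h a ≤ g a := by
    intro h₀
    obtain ⟨h, hh, hmono⟩ := exists_monotone h₀
    obtain ⟨c, hc⟩ := exists_coloring (Y := Om.{u}) (· < ·) inferInstance
      (fun a => (countable_Iic a).mono fun b (hb : b < a) => hb.le) h
    obtain ⟨n, hn⟩ := H.piece (Set.univ : Set Y) hns (fun n : ℕ => {y | c (φ.symm y) = n})
      (fun y _ => ⟨c (φ.symm y), rfl⟩)
    obtain ⟨C, hCR, hCn, hCs⟩ := H.dense _ hn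
    refine ⟨g C, ⟨C, ⟨hCR, hCs⟩, rfl⟩, fun a => ?_⟩
    obtain ⟨h1, b, h2, h3, h4⟩ := hg C a hCs
    have h5 : c (g C a) = n := by
      have := (hCn h1).2
      simpa using this
    have h6 : c b = n := by
      have := (hCn h2).2
      simpa using this
    have h7 : h b < g C a := by
      by_contra hcon
      exact hc b (g C a) h4 hcon (h6.trans h5.symm)
    exact (hh a).trans ((hmono a b h3).trans h7.le)
  have hDR : #D ≤ #R' := Cardinal.mk_image_le
  have hF1 : #F * #Y ≤ #F := by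
    have h1 : ℵ₁ < #D := lt_of_dominating D hD
    have h2 : (ℵ₁ : Cardinal.{u}) < #F * #Y := h1.trans_le (hDR.trans (hR'.trans hR))
    rw [hY] at h2 ⊢
    have h3 : ℵ₁ ≤ #F := by
      by_contra hcon
      rw [not_le] at hcon
      have h4 : #F * ℵ₁ ≤ ℵ₁ * (ℵ₁ : Cardinal.{u}) := mul_le_mul' hcon.le le_rfl
      rw [Cardinal.mul_eq_self h01] at h4
      exact absurd h2 (not_lt.2 h4)
    calc #F * ℵ₁ ≤ #F * #F := mul_le_mul' le_rfl h3
      _ = #F := Cardinal.mul_eq_self (h01.trans h3)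
  refine ⟨⟨R', hR'.trans (hR.trans hF1), fun C hC => hC.2, fun A hA => ?_⟩,
    ⟨D, hDR.trans (hR'.trans (hR.trans hF1)), hD⟩⟩
  obtain ⟨C, h1, h2, h3⟩ := H.dense A hA
  exact ⟨C, ⟨h1, h3⟩, h2⟩

end Pool.Agent.Results.MP_8f36f1_lc.DominatingBound
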