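import Pool.Agent.Results.MP_8f36f1_lc.WeaklySeparated
import Pool.Agent.Helper797F.Count

/-!
# MP_8f36f1_lc : few witnessing functions give separation whenever `2^ℵ₀ < 2^ℵ₁` (`2^ℵ₀ < ℵ_ω₁`)

Let `F` witness the normality of `Y`, `#Y = ℵ₁`, `#F < 2 ^ ℵ₁`.  If `2 ^ ℵ₀ < 2 ^ ℵ₁` and
`2 ^ ℵ₀ < ℵ_ω₁` (for instance under CH), then `Y` is separated.

The definitions (base systems, basic functions, `Witnesses`, `WitnessesNormality`, `Separated`) are
those of the file `WeaklySeparated.lean` of the same problem.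
-/

namespace Pool.Agent.Results.MP_8f36f1_lc.SeparatedUnderCH

open Cardinal Set Ordinal
open Pool.Agent.Results.MP_8f36f1_lc.WeaklySeparated
open Pool.Agent.Helper797F

universe u

variable {X : Type u} [TopologicalSpace X] {Y : Set X}

/-- every non-separated subset of `Y` contains a non-separated component of some `f ∈ F`, and there
are at most `#F * #Y` components -/
theorem dense_components (F : Set (Y → Set X))
    (hopen : ∀ f ∈ F, ∀ y : Y, IsOpen (f y) ∧ (y : X) ∈ f y)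
    (hF : WitnessesNormality F) :
    ∃ R : Set (Set Y), #R ≤ #F * #Y ∧ Dense (fun A : Set Y => Separated A) R := by
  classical
  let cls : F × Y → Set Y := fun q => {y' | Eqv q.1.1 y' q.2}
  refine ⟨Set.range cls, ?_, ?_⟩
  · refine Cardinal.mk_range_le.trans ?_
    rw [Cardinal.mk_prod, Cardinal.lift_id, Cardinal.lift_id]
  · refine ⟨fun A B hAB hB => sep_mono hB hAB, fun A hA => sep_iUnion F hopen hF A hA,
      fun A hA => sep_countable F hopen hF A hA, ?_⟩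
    intro A hA
    obtain ⟨f, hf, hfA⟩ := hF A
    obtain ⟨y, hy⟩ : ∃ y, ¬ Separated {y' | y' ∈ A ∧ Eqv f y' y} := by
      by_contra hcon
      push Not at hcon
      exact hA (sep_of_classes (hopen f hf) A hcon)
    refine ⟨cls (⟨f, hf⟩, y), ⟨_, rfl⟩, ?_, fun h => hy (sep_mono h (fun y' h' => h'.2))⟩
    obtain ⟨y₀, hy₀⟩ : ∃ y₀, y₀ ∈ {y' | y' ∈ A ∧ Eqv f y' y} := by
      by_contra hcon
      push Not at hcon
      apply hy
      refine sep_countable F hopen hF _ ?_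
      rw [Set.eq_empty_iff_forall_notMem.2 hcon]
      exact Set.countable_empty
    intro y' hy'
    have h1 : y' ∈ A ↔ y ∈ A := (hy' : Eqv f y' y) A hfA
    have h2 : y₀ ∈ A ↔ y ∈ A := hy₀.2 A hfA
    exact h1.2 (h2.1 hy₀.1)

theorem exists_aleph {c : Cardinal.{u}} (hc : c < ℵ_ (ω_ 1)) :
    ∃ o < ω_ 1, c ≤ ℵ_ o ∧ ℵ_ o ≤ max c ℵ₀ := by
  by_cases h : ℵ₀ ≤ c
  · obtain ⟨o, rfl⟩ := Cardinal.mem_range_aleph_iff.2 h
    exact ⟨o, Cardinal.aleph_lt_aleph.1 hc, le_rfl, le_max_left _ _⟩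
  · refine ⟨0, Ordinal.omega_pos 1, ?_, ?_⟩
    · rw [Cardinal.aleph_zero]
      exact (not_le.1 h).le
    · rw [Cardinal.aleph_zero]
      exact le_max_right _ _

/-- **Main theorem** (ZFC, no assumption on `X`).
Let `Y ⊆ X`, `#Y = ℵ₁`, and let `F` be a family of basic functions (for the local bases `𝓑`) which
witnesses the normality of `Y`.

(A) If `#F < 2 ^ ℵ₁`, `2 ^ ℵ₀ < 2 ^ ℵ₁` and `2 ^ ℵ₀ < ℵ_ω₁`, then `Y` is separated.

(B) More generally, let `ν < 2 ^ ℵ₁` and let `𝒜` be a family of at most `ν` subsets of a set `K` of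
size `2 ^ ℵ₀`, each of size at most `ν` and less than `ℵ_ω₁`, such that every subset of `K` of size
at most `ℵ₁` is covered by countably many members of `𝒜`.  If `#F < 2 ^ ℵ₁` then `Y` is separated.

(C) If `Y` is not separated, `K` is a set of size less than `ℵ_ω₁` and `Φ` is a family of functions
`Y → K` any two of which agree on a separated set only (for instance on a countable set), then
`#Φ ≤ max (#F, #K, ℵ₁)`. -/
theorem result : ∀ (X : Type u) [TopologicalSpace X] (Y : Set X) (𝓑 : Y → Set (Set X)),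
    IsBaseSystem Y 𝓑 → ∀ F : Set (Y → Set X), (∀ f ∈ F, IsBasic 𝓑 f) → WitnessesNormality F →
    #Y = ℵ₁ →
    (#F < 2 ^ (ℵ₁ : Cardinal.{u}) → (2 : Cardinal.{u}) ^ (ℵ₀ : Cardinal.{u}) < 2 ^ (ℵ₁ : Cardinal.{u}) →
      (2 : Cardinal.{u}) ^ (ℵ₀ : Cardinal.{u}) < ℵ_ (ω_ 1) → Separated (Set.univ : Set Y)) ∧
    (∀ (K : Type u) (ν : Cardinal.{u}) (𝒜 : Set (Set K)), #K = 2 ^ (ℵ₀ : Cardinal.{u}) →
      ν < 2 ^ (ℵ₁ : Cardinal.{u}) → #𝒜 ≤ ν → (∀ a ∈ 𝒜, #a ≤ ν ∧ #a < ℵ_ (ω_ 1)) →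
      (∀ S : Set K, #S ≤ ℵ₁ → ∃ s : ℕ → Set K, (∀ n, s n ∈ 𝒜) ∧ S ⊆ ⋃ n, s n) →
      #F < 2 ^ (ℵ₁ : Cardinal.{u}) → Separated (Set.univ : Set Y)) ∧
    (¬ Separated (Set.univ : Set Y) → ∀ K : Type u, #K < ℵ_ (ω_ 1) → ∀ Φ : Set (Y → K),
      (∀ φ ∈ Φ, ∀ ψ ∈ Φ, φ ≠ ψ → Separated {y | φ y = ψ y}) →
      #Φ ≤ max (max #F #K) ℵ₁) := by
  classical
  intro X _ Y 𝓑 h𝓑 F hFb hF hY
  have hopen : ∀ f ∈ F, ∀ y : Y, IsOpen (f y) ∧ (y : X) ∈ f y := fun f hf y =>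
    ⟨((h𝓑 y).1 _ (hFb f hf y)).1, ((h𝓑 y).1 _ (hFb f hf y)).2.1⟩
  obtain ⟨R, hR, H⟩ := dense_components F hopen hF
  have h01 : (ℵ₀ : Cardinal.{u}) ≤ ℵ₁ := Cardinal.aleph0_le_aleph 1
  have h1c : (ℵ₁ : Cardinal.{u}) < 2 ^ (ℵ₁ : Cardinal.{u}) := Cardinal.cantor _
  -- (B)
  have hB : ∀ (K : Type u) (ν : Cardinal.{u}) (𝒜 : Set (Set K)), #K = 2 ^ (ℵ₀ : Cardinal.{u}) →
      ν < 2 ^ (ℵ₁ : Cardinal.{u}) → #𝒜 ≤ ν → (∀ a ∈ 𝒜, #a ≤ ν ∧ #a < ℵ_ (ω_ 1)) →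
      (∀ S : Set K, #S ≤ ℵ₁ → ∃ s : ℕ → Set K, (∀ n, s n ∈ 𝒜) ∧ S ⊆ ⋃ n, s n) →
      #F < 2 ^ (ℵ₁ : Cardinal.{u}) → Separated (Set.univ : Set Y) := by
    intro K ν 𝒜 hK hν h𝒜 ha hcov hFc
    by_contra hns
    let μ : Cardinal.{u} := max (max #F ν) ℵ₁
    have hμ1 : ℵ₁ ≤ μ := le_max_right _ _
    have hμ0 : ℵ₀ ≤ μ := h01.trans hμ1
    have hμF : #F ≤ μ := (le_max_left _ _).trans (le_max_left _ _)
    have hμν : ν ≤ μ := (le_max_right _ _).trans (le_max_left _ _)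
    have hμc : μ < 2 ^ (ℵ₁ : Cardinal.{u}) := max_lt (max_lt hFc hν) h1c
    have hRμ : #R ≤ μ := hR.trans ((mul_le_mul' hμF (by rw [hY]; exact hμ1)).trans
      (Cardinal.mul_eq_self hμ0).le)
    have hg : ∀ a ∈ 𝒜, Guess (fun A : Set Y => Separated A) a μ := by
      intro a haa
      obtain ⟨o, ho, h1, h2⟩ := exists_aleph (ha a haa).2
      refine guess_aleph H hY μ hμ0 hRμ o ho ?_ a h1
      exact h2.trans (max_le ((ha a haa).1.trans hμν) hμ0)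
    have hgK : Guess (fun A : Set Y => Separated A) K μ := by
      refine (guess_cover H 𝒜 ?_ hg).mono ((mul_le_mul' (h𝒜.trans hμν) le_rfl).trans
        (Cardinal.mul_eq_self hμ0).le)
      intro h
      obtain ⟨s, hs1, hs2⟩ := hcov (Set.range h) (by
        rw [← hY]
        exact Cardinal.mk_range_le)
      exact ⟨s, hs1, fun y => mem_iUnion.1 (hs2 ⟨y, rfl⟩)⟩
    have hle : #(ULift.{u} (Set ℕ)) ≤ #K := by
      rw [hK, Cardinal.mk_uLift, Cardinal.mk_set, Cardinal.mk_nat]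
      simp
    obtain ⟨e⟩ := hle
    have := guess_sets H hns hY hμ0 hRμ (Guess.of_injective H e e.injective hgK)
    exact absurd this (not_le.2 hμc)
  refine ⟨?_, hB, ?_⟩
  · intro hFc h1 h2
    let K : Type u := ULift.{u} (Set ℕ)
    have hK : #K = 2 ^ (ℵ₀ : Cardinal.{u}) := by
      show #(ULift.{u} (Set ℕ)) = _
      rw [Cardinal.mk_uLift, Cardinal.mk_set, Cardinal.mk_nat]
      simp
    refine hB K (2 ^ (ℵ₀ : Cardinal.{u})) {Set.univ} hK h1 ?_ ?_ ?_ hFc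
    · rw [Cardinal.mk_singleton]
      exact Cardinal.one_lt_aleph0.le.trans (Cardinal.cantor _).le
    · rintro a rfl
      rw [Cardinal.mk_univ, hK]
      exact ⟨le_rfl, h2⟩
    · intro S _
      exact ⟨fun _ => Set.univ, fun _ => rfl, fun x _ => mem_iUnion.2 ⟨0, trivial⟩⟩
  · intro hns K hK Φ hΦ
    let μ : Cardinal.{u} := max (max #F #K) ℵ₁
    have hμ1 : ℵ₁ ≤ μ := le_max_right _ _
    have hμ0 : ℵ₀ ≤ μ := h01.trans hμ1
    have hμF : #F ≤ μ := (le_max_left _ _).trans (le_max_left _ _)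
    have hμK : #K ≤ μ := (le_max_right _ _).trans (le_max_left _ _)
    have hRμ : #R ≤ μ := hR.trans ((mul_le_mul' hμF (by rw [hY]; exact hμ1)).trans
      (Cardinal.mul_eq_self hμ0).le)
    obtain ⟨o, ho, h1, h2⟩ := exists_aleph hK
    have hg := guess_aleph H hY μ hμ0 hRμ o ho (h2.trans (max_le hμK hμ0)) K h1
    exact (guess_count H hns hg Φ hΦ).trans
      ((mul_le_mul' le_rfl hRμ).trans (Cardinal.mul_eq_self hμ0).le)

end Pool.Agent.Results.MP_8f36f1_lc.SeparatedUnderCH
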